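import Mathlib

namespace Pool.Agent.Results.MP_025d69_co.SingularJoin

open Finset Matrix

/-- A subgraph has no cut-vertex: deleting any one of its vertices leaves a graph in which any
two vertices are connected by a path. -/
def HasNoCutVertex {V : Type*} {G : SimpleGraph V} (H : G.Subgraph) : Prop :=
  ∀ c ∈ H.verts, (H.deleteVerts {c}).Preconnected

/-- A block of `G`: a maximal connected subgraph with no cut-vertex. -/
def IsBlock {V : Type*} (G : SimpleGraph V) (H : G.Subgraph) : Prop :=
  Maximal (fun H' : G.Subgraph => H'.Connected ∧ HasNoCutVertex H') H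

/-- A block graph: a connected graph in which every block is a complete graph. -/
def IsBlockGraph {V : Type*} (G : SimpleGraph V) : Prop :=
  G.Connected ∧ ∀ H : G.Subgraph, IsBlock G H → ∀ u ∈ H.verts, ∀ v ∈ H.verts, u ≠ v → H.Adj u v

/-- The graph obtained from the disjoint union of `G₁` and `G₂` by adding the edge `v₁v₂`. -/
def joinByEdge {V W : Type*} (G₁ : SimpleGraph V) (G₂ : SimpleGraph W) (v₁ : V) (v₂ : W) :
    SimpleGraph (V ⊕ W) :=
  (SimpleGraph.sum G₁ G₂) ⊔ SimpleGraph.edge (Sum.inl v₁) (Sum.inr v₂)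

section general
variable {V : Type*} {G : SimpleGraph V}

lemma preconnected_of_clique (P : G.Subgraph)
    (h : ∀ u ∈ P.verts, ∀ v ∈ P.verts, u ≠ v → P.Adj u v) : P.Preconnected := by
  rw [SimpleGraph.Subgraph.preconnected_iff]
  intro a b
  by_cases hab : a = b
  · rw [hab]
  · apply SimpleGraph.Adj.reachable
    have h1 : (a : V) ≠ b := fun h => hab (Subtype.ext h)
    exact h a a.2 b b.2 h1

lemma stay (P : G.Subgraph) (S : Set V) (c : V) (hc : c ∉ P.verts)
    (hS : ∀ a ∈ S, ∀ b, G.Adj a b → b ∈ S ∨ b = c) (hP : P.Preconnected)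
    (x : V) (hx : x ∈ P.verts) (hxS : x ∈ S) : ∀ y ∈ P.verts, y ∈ S := by
  intro y hy
  rw [SimpleGraph.Subgraph.preconnected_iff] at hP
  obtain ⟨w⟩ := hP ⟨x, hx⟩ ⟨y, hy⟩
  have key : ∀ (a b : P.verts) (_ : P.coe.Walk a b), (a : V) ∈ S → (b : V) ∈ S := by
    intro a b p
    induction p with
    | nil => exact id
    | @cons a b d hadj p ih =>
      intro ha
      apply ih
      have h1 : G.Adj (a : V) (b : V) := P.adj_sub hadj
      rcases hS a ha b h1 with h | h
      · exact h
      · exact absurd (h ▸ b.2) hc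
  exact key _ _ w hxS

lemma sep (H : G.Subgraph) (hH : H.Connected) (hcut : HasNoCutVertex H) (S : Set V) (c : V)
    (hS : ∀ a ∈ S, ∀ b, G.Adj a b → b ∈ S ∨ b = c) (hcS : c ∉ S)
    (x : V) (hx : x ∈ H.verts) (hxS : x ∈ S) : ∀ y ∈ H.verts, y ∈ S ∨ y = c := by
  intro y hy
  by_cases hc : c ∈ H.verts
  · by_cases hyc : y = c
    · right; exact hyc
    · left
      have h1 := hcut c hc
      have hxc : x ≠ c := fun h => hcS (h ▸ hxS)
      exact stay (H.deleteVerts {c}) S c (by simp) hS h1 x (by simp [hx, hxc]) hxS y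
        (by simp [hy, hyc])
  · left
    exact stay H S c hc hS hH.preconnected x hx hxS y hy

lemma adj_of_clique (H : G.Subgraph) (hH : IsBlock G H) (K : Set V) (hne : H.verts ⊆ K)
    (hK : ∀ u ∈ K, ∀ v ∈ K, u ≠ v → G.Adj u v) :
    ∀ u ∈ H.verts, ∀ v ∈ H.verts, u ≠ v → H.Adj u v := by
  let T : G.Subgraph := (⊤ : G.Subgraph).induce K
  have hTadj : ∀ u ∈ K, ∀ v ∈ K, u ≠ v → T.Adj u v := by
    intro u hu v hv huv
    simp only [T, SimpleGraph.Subgraph.induce_adj, SimpleGraph.Subgraph.top_adj]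
    exact ⟨hu, hv, hK u hu v hv huv⟩
  have hTv : T.verts = K := rfl
  have hT1 : T.Connected := by
    rw [SimpleGraph.Subgraph.connected_iff]
    refine ⟨preconnected_of_clique T hTadj, ?_⟩
    obtain ⟨x, hx⟩ := hH.prop.1.nonempty
    exact ⟨x, hne hx⟩
  have hT2 : HasNoCutVertex T := by
    intro c _
    apply preconnected_of_clique
    intro u hu v hv huv
    rw [SimpleGraph.Subgraph.deleteVerts_verts] at hu hv
    rw [SimpleGraph.Subgraph.deleteVerts_adj]
    exact ⟨hu.1, hu.2, hv.1, hv.2, hTadj u hu.1 v hv.1 huv⟩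
  have hle : H ≤ T := by
    refine ⟨hne, fun a b hab => ?_⟩
    exact hTadj a (hne (H.edge_vert hab)) b (hne (H.edge_vert hab.symm)) hab.ne
  have hge : T ≤ H := hH.2 ⟨hT1, hT2⟩ hle
  intro u hu v hv huv
  exact hge.2 (hTadj u (hne hu) v (hne hv) huv)

end general

/-- The four blocks of the witness. -/
def cliques : Finset (Finset (Fin 7)) := {{0, 1}, {0, 4}, {1, 2, 3}, {4, 5, 6}}

/-- The witness: a vertex `0` joined to one vertex of each of two triangles
`{1, 2, 3}` and `{4, 5, 6}`. -/
def H7 : SimpleGraph (Fin 7) where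
  Adj i j := i ≠ j ∧ ∃ K ∈ cliques, i ∈ K ∧ j ∈ K
  symm := ⟨fun i j h => ⟨h.1.symm, by obtain ⟨K, hK, h1, h2⟩ := h.2; exact ⟨K, hK, h2, h1⟩⟩⟩
  loopless := ⟨fun i h => h.1 rfl⟩

instance : DecidableRel H7.Adj := fun i j => by
  unfold H7
  infer_instance

lemma blockGraph_H7 : IsBlockGraph H7 := by
  constructor
  · rw [SimpleGraph.connected_iff_exists_forall_reachable]
    have h1 : H7.Adj 0 1 := by decide
    have h4 : H7.Adj 0 4 := by decide
    refine ⟨0, fun w => ?_⟩
    fin_cases w
    · exact SimpleGraph.Reachable.refl _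
    · exact h1.reachable
    · exact h1.reachable.trans (SimpleGraph.Adj.reachable (by decide))
    · exact h1.reachable.trans (SimpleGraph.Adj.reachable (by decide))
    · exact h4.reachable
    · exact h4.reachable.trans (SimpleGraph.Adj.reachable (by decide))
    · exact h4.reachable.trans (SimpleGraph.Adj.reachable (by decide))
  · intro H hH
    have hconn := hH.prop.1
    have hcut := hH.prop.2
    have hkey : ∃ K ∈ cliques, H.verts ⊆ (K : Set (Fin 7)) := by
      have hs : ∀ (S : Finset (Fin 7)) (c : Fin 7),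
          (∀ a ∈ S, ∀ b, H7.Adj a b → b ∈ S ∨ b = c) → c ∉ S →
          (∀ x ∈ H.verts, x ∉ S) ∨ (∀ y ∈ H.verts, y ∈ S ∨ y = c) := by
        intro S c h1 h2
        by_cases h : ∃ x ∈ H.verts, x ∈ S
        · right
          obtain ⟨x, hx, hxS⟩ := h
          exact sep H hconn hcut (S : Set (Fin 7)) c (by simpa using h1) (by simpa using h2) x hx
            (by simpa using hxS)
        · left
          push Not at h
          exact h
      have s1 := hs {2, 3} 1 (by decide) (by decide)
      have s4 := hs {5, 6} 4 (by decide) (by decide)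
      have s0 := hs {1, 2, 3} 0 (by decide) (by decide)
      rcases s1 with s1 | s1
      · rcases s4 with s4 | s4
        · rcases s0 with s0 | s0
          · refine ⟨{0, 4}, by decide, fun y hy => ?_⟩
            have a1 := s1 y hy
            have a4 := s4 y hy
            have a0 := s0 y hy
            revert a1 a4 a0
            clear hy
            rw [Finset.mem_coe]
            revert y
            decide
          · refine ⟨{0, 1}, by decide, fun y hy => ?_⟩
            have a1 := s1 y hy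
            have a4 := s4 y hy
            have a0 := s0 y hy
            revert a1 a4 a0
            clear hy
            rw [Finset.mem_coe]
            revert y
            decide
        · refine ⟨{4, 5, 6}, by decide, fun y hy => ?_⟩
          have a4 := s4 y hy
          revert a4
          clear hy
          rw [Finset.mem_coe]
          revert y
          decide
      · refine ⟨{1, 2, 3}, by decide, fun y hy => ?_⟩
        have a1 := s1 y hy
        revert a1
        clear hy
        rw [Finset.mem_coe]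
        revert y
        decide
    obtain ⟨K, hK, hsub⟩ := hkey
    refine adj_of_clique H hH (K : Set (Fin 7)) hsub ?_
    intro u hu v hv huv
    exact ⟨huv, K, hK, hu, hv⟩

lemma map_det {W : Type*} [Fintype W] [DecidableEq W] (G : SimpleGraph W) [DecidableRel G.Adj] :
    (G.adjMatrix ℝ).det = (((G.adjMatrix ℤ).det : ℤ) : ℝ) := by
  have h : G.adjMatrix ℝ = (Int.castRingHom ℝ).mapMatrix (G.adjMatrix ℤ) := by
    ext i j
    simp only [SimpleGraph.adjMatrix_apply, RingHom.mapMatrix_apply, Matrix.map_apply]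
    split_ifs <;> simp
  rw [h, ← RingHom.map_det]
  rfl

lemma det_H7 : (H7.adjMatrix ℝ).det ≠ 0 := by
  have h : H7.adjMatrix ℤ * !![4, 2, -2, -2, 2, -2, -2; 2, -1, 1, 1, 1, -1, -1;
      -2, 1, -1, 3, -1, 1, 1; -2, 1, 3, -1, -1, 1, 1; 2, 1, -1, -1, -1, 1, 1;
      -2, -1, 1, 1, 1, -1, 3; -2, -1, 1, 1, 1, 3, -1] = (4 : ℤ) • 1 := by
    decide +kernel
  rw [map_det]
  intro h0
  have h0' : (H7.adjMatrix ℤ).det = 0 := by exact_mod_cast h0
  have h2 := congrArg Matrix.det h
  rw [Matrix.det_mul, h0', zero_mul, Matrix.det_smul, Matrix.det_one] at h2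
  norm_num at h2

instance : DecidableRel (joinByEdge H7 H7 0 0).Adj := fun i j =>
  match i, j with
  | Sum.inl a, Sum.inl b => decidable_of_iff (H7.Adj a b) (by
      simp [joinByEdge, SimpleGraph.edge_adj])
  | Sum.inl a, Sum.inr b => decidable_of_iff (a = 0 ∧ b = 0) (by
      simp [joinByEdge, SimpleGraph.edge_adj])
  | Sum.inr a, Sum.inl b => decidable_of_iff (a = 0 ∧ b = 0) (by
      simp [joinByEdge, SimpleGraph.edge_adj])
  | Sum.inr a, Sum.inr b => decidable_of_iff (H7.Adj a b) (by
      simp [joinByEdge, SimpleGraph.edge_adj])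

lemma det_join : ((joinByEdge H7 H7 0 0).adjMatrix ℝ).det = 0 := by
  have h : (joinByEdge H7 H7 0 0).adjMatrix ℤ *ᵥ
      (Sum.elim ![2, 1, -1, -1, 1, -1, -1] ![-2, -1, 1, 1, -1, 1, 1]) = 0 := by
    decide +kernel
  have h0 : ((joinByEdge H7 H7 0 0).adjMatrix ℤ).det = 0 := by
    rw [← Matrix.exists_mulVec_eq_zero_iff]
    refine ⟨_, ?_, h⟩
    intro h1
    have := congrFun h1 (Sum.inl 0)
    simp at this
  rw [map_det, h0, Int.cast_zero]

/-- **Disproof**: joining two nonsingular block graphs by an edge can give a singular graph. -/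
theorem result : ∃ (n₁ n₂ : ℕ) (G₁ : SimpleGraph (Fin n₁)) (G₂ : SimpleGraph (Fin n₂))
    (v₁ : Fin n₁) (v₂ : Fin n₂) (_ : DecidableRel G₁.Adj) (_ : DecidableRel G₂.Adj)
    (_ : DecidableRel (joinByEdge G₁ G₂ v₁ v₂).Adj),
    IsBlockGraph G₁ ∧ IsBlockGraph G₂ ∧
    (G₁.adjMatrix ℝ).det ≠ 0 ∧ (G₂.adjMatrix ℝ).det ≠ 0 ∧
    ((joinByEdge G₁ G₂ v₁ v₂).adjMatrix ℝ).det = 0 :=
  ⟨7, 7, H7, H7, 0, 0, inferInstance, inferInstance, inferInstance,
    blockGraph_H7, blockGraph_H7, det_H7, det_H7, det_join⟩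

end Pool.Agent.Results.MP_025d69_co.SingularJoin
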